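import Mathlib

/-!
# Fredholm alternative, abstract form (project HP)
-/

set_option autoImplicit false

open Set Filter Topology

namespace Pool.Agent.W304.HP

theorem bij_one_sub {X : Type} [NormedAddCommGroup X] [NormedSpace ℝ X] [CompleteSpace X]
    {T : X →L[ℝ] X} (hT : IsCompactOperator T) (hinj : ∀ v, v - T v = 0 → v = 0) :
    Function.Surjective (fun v => v - T v) := by
  rcases IsCompactOperator.hasEigenvalue_or_mem_resolventSet hT (one_ne_zero : (1 : ℝ) ≠ 0)
    with h | h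
  · exfalso
    obtain ⟨v, hv⟩ := h.exists_hasEigenvector
    have h1 := hv.apply_eq_smul
    apply hv.2
    apply hinj
    rw [one_smul] at h1
    exact sub_eq_zero.2 h1.symm
  · have h1 : IsUnit (algebraMap ℝ (X →L[ℝ] X) 1 - T) := h
    rw [map_one] at h1
    obtain ⟨u, hu⟩ := h1
    intro w
    refine ⟨(↑u⁻¹ : X →L[ℝ] X) w, ?_⟩
    have h2 : (u : X →L[ℝ] X) * (↑u⁻¹ : X →L[ℝ] X) = 1 := u.mul_inv
    have h3 := congrArg (fun S : X →L[ℝ] X => S w) h2
    rw [hu] at h3
    exact h3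

theorem fred_abs {Q' E' : Type} [NormedAddCommGroup Q'] [NormedSpace ℝ Q'] [CompleteSpace Q']
    [NormedAddCommGroup E'] [NormedSpace ℝ E'] [CompleteSpace E']
    (N : E' →L[ℝ] Q') (A B : E' →L[ℝ] E') (hAB : ∀ a, A (B a) = a) (hBA : ∀ a, B (A a) = a)
    (H : Q' →L[ℝ] E') (K : Q' × E' →L[ℝ] E') (hK : IsCompactOperator K)
    (D : ℝ) (hD : D ≠ 0) (C1 : Q' →L[ℝ] Q') (hC1 : IsCompactOperator C1)
    (hC : ∀ q, N (B (H q)) = D • q + C1 q)
    (L : Q' × E' → Q' × E') (hL : ∀ v, L v = (N v.2, A v.2 - H v.1 + K v))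
    (hinj : ∀ v, L v = 0 → v = 0) : Function.Bijective L := by
  obtain ⟨S, hS⟩ : ∃ S : Q' × E' →L[ℝ] Q', S = D⁻¹ • (C1.comp (ContinuousLinearMap.fst ℝ Q' E') -
    N.comp (B.comp K)) := ⟨_, rfl⟩
  have hScp : IsCompactOperator S := by
    rw [hS]
    have h1 : IsCompactOperator (C1.comp (ContinuousLinearMap.fst ℝ Q' E') - N.comp (B.comp K)) :=
      (hC1.comp_clm _).sub ((hK.clm_comp B).clm_comp N)
    exact h1.smul (D⁻¹)
  have hSv : ∀ v, S v = D⁻¹ • (C1 v.1 - N (B (K v))) := fun v => by rw [hS]; rfl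
  obtain ⟨S2, hS2⟩ : ∃ S2 : Q' × E' →L[ℝ] E', S2 = B.comp (K + H.comp S) := ⟨_, rfl⟩
  have hS2cp : IsCompactOperator S2 := by
    rw [hS2]
    have h1 : IsCompactOperator (K + H.comp S) := hK.add (hScp.clm_comp H)
    exact h1.clm_comp B
  have hS2v : ∀ v, S2 v = B (K v + H (S v)) := fun v => by rw [hS2]; rfl
  obtain ⟨T, hT⟩ : ∃ T : Q' × E' →L[ℝ] Q' × E', T = -((ContinuousLinearMap.inl ℝ Q' E').comp S +
    (ContinuousLinearMap.inr ℝ Q' E').comp S2) := ⟨_, rfl⟩
  have hTcp : IsCompactOperator T := by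
    rw [hT]
    have h1 : IsCompactOperator ((ContinuousLinearMap.inl ℝ Q' E').comp S +
        (ContinuousLinearMap.inr ℝ Q' E').comp S2) :=
      (hScp.clm_comp (ContinuousLinearMap.inl ℝ Q' E')).add
        (hS2cp.clm_comp (ContinuousLinearMap.inr ℝ Q' E'))
    exact h1.neg
  have hTv : ∀ v, T v = -(S v, S2 v) := fun v => by
    rw [hT]
    simp only [neg_apply, add_apply,
      ContinuousLinearMap.comp_apply, ContinuousLinearMap.inl_apply,
      ContinuousLinearMap.inr_apply, Prod.mk_add_mk, add_zero, zero_add]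
  -- the regulariser
  obtain ⟨R, hR⟩ : ∃ R : Q' × E' → Q' × E', R = fun w =>
    (D⁻¹ • (w.1 - N (B w.2)), B (w.2 + H (D⁻¹ • (w.1 - N (B w.2))))) := ⟨_, rfl⟩
  have hRL : ∀ v, R (L v) = v - T v := by
    intro v
    rw [hR, hL, hTv, sub_neg_eq_add]
    have h1 : N v.2 - N (B (A v.2 - H v.1 + K v)) = D • v.1 + (C1 v.1 - N (B (K v))) := by
      rw [map_add, map_sub, hBA, map_add, map_sub, hC]; abel
    have h2 : D⁻¹ • (D • v.1 + (C1 v.1 - N (B (K v)))) = v.1 + S v := by
      rw [smul_add, smul_smul, inv_mul_cancel₀ hD, one_smul, hSv]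
    simp only [h1, h2]
    refine Prod.ext rfl ?_
    show B (A v.2 - H v.1 + K v + H (v.1 + S v)) = v.2 + S2 v
    rw [hS2v, map_add H, show A v.2 - H v.1 + K v + (H v.1 + H (S v)) = A v.2 + (K v + H (S v)) by
      abel, map_add, hBA]
  have hR0 : ∀ w w', R w = R w' → w = w' := by
    intro w w' h
    rw [hR] at h
    have h1 := congrArg Prod.fst h
    have h2 := congrArg Prod.snd h
    simp only at h1 h2
    rw [h1] at h2
    have h3 : w.2 = w'.2 := by
      have h4 := congrArg A h2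
      rw [hAB, hAB] at h4
      exact add_right_cancel h4
    have h5 : w.1 - N (B w.2) = w'.1 - N (B w'.2) := by
      have h6 := congrArg (fun q => D • q) h1
      simpa only [smul_smul, mul_inv_cancel₀ hD, one_smul] using h6
    rw [h3] at h5
    exact Prod.ext (sub_left_injective h5) h3
  have hL0 : L 0 = 0 := by rw [hL]; simp
  have hLsub : ∀ v w, L (v - w) = L v - L w := by
    intro v w
    rw [hL, hL, hL]
    simp only [Prod.fst_sub, Prod.snd_sub, map_sub, Prod.mk_sub_mk]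
    refine Prod.ext rfl ?_
    show A v.2 - A w.2 - (H v.1 - H w.1) + (K v - K w) =
      (A v.2 - H v.1 + K v) - (A w.2 - H w.1 + K w)
    abel
  constructor
  · intro v w h
    have := hinj (v - w) (by rw [hLsub, h, sub_self])
    exact sub_eq_zero.1 this
  · have hsur := bij_one_sub hTcp (by
      intro v hv
      apply hinj
      have h1 : R (L v) = R (L 0) := by rw [hRL, hRL, hv, map_zero, sub_zero]
      rw [hR0 _ _ h1, hL0])
    intro w
    obtain ⟨v, hv⟩ := hsur (R w)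
    refine ⟨v, hR0 _ _ ?_⟩
    rw [hRL]
    exact hv

end Pool.Agent.W304.HP
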