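import Pool.Agent.W743.HP.Stm
import Pool.Agent.W304.HP.FredAbs

/-!
# Project HP: Fredholm alternative for the linearised problem at a radial solution
-/

set_option autoImplicit false

open Set Filter Topology

namespace Pool.Agent.W304.HP

open Pool.Agent.W743.HP

section aux

variable {V W Z : Type} [NormedAddCommGroup V] [NormedSpace ℝ V] [NormedAddCommGroup W]
  [NormedSpace ℝ W] [NormedAddCommGroup Z] [NormedSpace ℝ Z]

theorem cadd {f g : V →L[ℝ] W} (hf : IsCompactOperator f) (hg : IsCompactOperator g) :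
    IsCompactOperator (f + g) := hf.add hg

theorem csub {f g : V →L[ℝ] W} (hf : IsCompactOperator f) (hg : IsCompactOperator g) :
    IsCompactOperator (f - g) := hf.sub hg

theorem cneg {f : V →L[ℝ] W} (hf : IsCompactOperator f) : IsCompactOperator (-f) := hf.neg

theorem csmul {f : V →L[ℝ] W} (c : ℝ) (hf : IsCompactOperator f) :
    IsCompactOperator (c • f) := hf.smul c

theorem crank (f : V →L[ℝ] ℝ) (w : W) : IsCompactOperator (f.smulRight w) := by
  have h1 : IsCompactOperator (ContinuousLinearMap.id ℝ ℝ) :=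
    isCompactOperator_id_iff_locallyCompactSpace.2 inferInstance
  have h4 : IsCompactOperator ((ContinuousLinearMap.id ℝ ℝ).comp f) := h1.comp_clm f
  have h2 : IsCompactOperator ((ContinuousLinearMap.toSpanSingleton ℝ w).comp
      ((ContinuousLinearMap.id ℝ ℝ).comp f)) :=
    h4.clm_comp (ContinuousLinearMap.toSpanSingleton ℝ w)
  have h3 : f.smulRight w = (ContinuousLinearMap.toSpanSingleton ℝ w).comp
      ((ContinuousLinearMap.id ℝ ℝ).comp f) := by
    ext v; simp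
  rw [h3]
  exact h2

end aux

/-- Coordinates. -/
noncomputable def co (k : ℕ) : Q →L[ℝ] ℝ :=
  lift (fun n => if n = k then 1 else 0) 1 fun n => by split <;> simp

theorem co_apply (k : ℕ) (q : Q) : co k q = q k := by
  unfold co
  rw [lift_apply, tsum_eq_single k]
  · simp
  · intro j hj; simp [hj]

theorem ue_self {ι : Type} [DecidableEq ι] (i : ι) : (ue i : L1 ι) i = 1 := by
  unfold ue; simp

theorem ue_ne {ι : Type} [DecidableEq ι] {i j : ι} (h : j ≠ i) : (ue i : L1 ι) j = 0 := by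
  unfold ue
  exact lp.single_apply_ne 1 i 1 h

theorem PP_lt {n : ℕ} (h : n < 2) : PP (ue n) = 0 := by
  unfold PP; rw [lift_ue, if_pos h]

theorem PP_ge {n : ℕ} (h : ¬ n < 2) : PP (ue n) = ue n := by
  unfold PP; rw [lift_ue, if_neg h]

theorem ph_zero (y : ℝ) : ph 0 (y • ue 0) = ue 0 := by
  unfold ph
  rw [map_smul, PP_lt (by norm_num)]
  simp

theorem coord0 (y : ℝ) : ((y • ue 0 : Q)) 0 = y := by
  rw [lp.coeFn_smul]; simp [ue_self]

theorem coord1 (y : ℝ) : ((y • ue 0 : Q)) 1 = 0 := by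
  rw [lp.coeFn_smul]
  have : (ue 0 : Q) 1 = 0 := ue_ne (by norm_num)
  simp [this]

theorem SS_zero : SS (ue 0) = ue 0 := by
  unfold SS; rw [lift_ue]; simp

theorem BB_ue (i j : ℕ) : BB (ue i) (ue j) = ue ((i - j) + (j - i), 4 * min i j) := by
  unfold BB; rw [lift₂_ue]

theorem RR_ue (i : ℕ × ℕ) : RR (ue i) = ue (i.1, i.2 + 1) := by
  unfold RR; rw [lift_ue]

theorem mul_ue (i k : ℕ × ℕ) : mulE (ue i) (ue k) = (1 / 2 : ℝ) • ue (i.1 + k.1, i.2 + k.2) +
    (1 / 2 : ℝ) • ue ((i.1 - k.1) + (k.1 - i.1), i.2 + k.2 + 4 * min i.1 k.1) := by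
  unfold mulE; rw [lift₂_ue]

theorem half_half (a : E) : (1 / 2 : ℝ) • a + (1 / 2 : ℝ) • a = a := by
  rw [← add_smul]; norm_num

theorem XX_one : XX (ue 0) = ue (0, 1) := by
  unfold XX
  rw [SS_zero, BB_ue, RR_ue]
  simp

theorem mul01 : mulE (ue (0, 1)) = RR := by
  apply L1.ext_ue
  rintro ⟨n, j⟩
  rw [mul_ue, RR_ue]
  simp only [zero_add, Nat.zero_sub, Nat.sub_zero, Nat.zero_min, mul_zero, add_zero]
  rw [add_comm 1 j]
  exact half_half _

theorem mul00 (a : E) : mulE (ue (0, 0)) a = a := by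
  have h : mulE (ue (0, 0)) = ContinuousLinearMap.id ℝ E := by
    apply L1.ext_ue
    rintro ⟨n, j⟩
    rw [mul_ue]
    simp only [zero_add, Nat.zero_sub, Nat.sub_zero, Nat.zero_min, mul_zero, add_zero]
    exact half_half _
  rw [h]; rfl

theorem BB_symm (q : Q) : BB q (ue 0) = BB (ue 0) q := by
  have h : BB.flip (ue 0) = BB (ue 0) := by
    apply L1.ext_ue
    intro n
    rw [ContinuousLinearMap.flip_apply, BB_ue, BB_ue, Nat.min_comm, Nat.add_comm]
  have h2 := congrArg (fun f : Q →L[ℝ] E => f q) h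
  exact h2

theorem BB00 : BB (ue 0) (ue 0) = ue (0, 0) := by rw [BB_ue]; simp

/-- `dXX (ue 0) (PP q)` as an operator. -/
noncomputable def WL : Q →L[ℝ] E := RR.comp ((BB (ue 0) + BB.flip (ue 0)).comp (SS.comp PP))

theorem WL_apply (q : Q) : WL q = dXX (ue 0) (PP q) := by
  unfold WL dXX
  rw [SS_zero]
  rfl

section main

variable (α y : ℝ) (m : E)

/-- `1 - 2 y R + y² R²`. -/
noncomputable def AA : E →L[ℝ] E := (1 - y • RR) * (1 - y • RR)

theorem AA_apply (a : E) : AA y a = a - (2 * y) • RR a + (y ^ 2) • RR (RR a) := by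
  unfold AA
  show ((1 - y • RR : E →L[ℝ] E) ((1 - y • RR : E →L[ℝ] E) a)) = _
  simp only [sub_apply, ContinuousLinearMap.one_apply,
    smul_apply, map_sub, map_smul]
  module

/-- The main operator. -/
noncomputable def HH (U0 : E) : Q →L[ℝ] E :=
  (2 * α * y) • ((mulE.flip U0).comp ((BB (ue 0)).comp PP))

theorem HH_apply (U0 : E) (q : Q) :
    HH α y U0 q = (2 * α * y) • mulE (BB (ue 0) (PP q)) U0 := rfl

/-- The compact part. -/
noncomputable def KK (U0 : E) : Q × E →L[ℝ] E :=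
  -((2 : ℝ) • ((co 0).comp (ContinuousLinearMap.fst ℝ Q E)).smulRight (RR m)) -
    (2 * y) • ((mulE.flip m).comp (WL.comp (ContinuousLinearMap.fst ℝ Q E))) +
    (2 * y) • ((co 0).comp (ContinuousLinearMap.fst ℝ Q E)).smulRight (RR (RR m)) +
    (y ^ 2) • ((mulE.flip (RR m)).comp (WL.comp (ContinuousLinearMap.fst ℝ Q E)) +
      RR.comp ((mulE.flip m).comp (WL.comp (ContinuousLinearMap.fst ℝ Q E)))) -
    α • ((co 0).comp (ContinuousLinearMap.fst ℝ Q E)).smulRight U0 -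
    (α * y) • (TT.comp (ContinuousLinearMap.snd ℝ Q E) +
      ((co 1).comp (ContinuousLinearMap.fst ℝ Q E)).smulRight (ue (1, 0)))

theorem KK_apply (U0 : E) (v : Q × E) : KK α y m U0 v =
    -((2 : ℝ) • (v.1 0 • RR m)) - (2 * y) • mulE (WL v.1) m + (2 * y) • (v.1 0 • RR (RR m)) +
    (y ^ 2) • (mulE (WL v.1) (RR m) + RR (mulE (WL v.1) m)) - α • (v.1 0 • U0) -
    (α * y) • (TT v.2 + v.1 1 • ue (1, 0)) := by
  unfold KK
  simp only [sub_apply, add_apply, neg_apply, smul_apply,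
    ContinuousLinearMap.smulRight_apply, ContinuousLinearMap.comp_apply,
    ContinuousLinearMap.coe_fst', ContinuousLinearMap.coe_snd', ContinuousLinearMap.flip_apply,
    co_apply]

theorem DF_eq (v : Q × E) : DF α 0 (y • ue 0, m) 0 v =
    (NN v.2, AA y v.2 - HH α y (UU (y • ue 0, m)) v.1 + KK α y m (UU (y • ue 0, m)) v) := by
  rw [AA_apply, HH_apply, KK_apply, WL_apply]
  unfold DF
  simp only [ph_zero, coord0, XX_one, mul01, BB00, mul00, BB_symm]
  have h1 : dph 0 v.1 = PP v.1 := by unfold dph; simp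
  rw [h1]
  refine Prod.ext rfl ?_
  simp only [BB_symm, map_add, add_apply]
  module

end main

/-! ### The inverse of `AA` -/

theorem norm_RR : ‖RR‖ ≤ 1 := norm_lift_le _ _ zero_le_one _

theorem AA_inv {y : ℝ} (hy : 0 < y) (hy1 : y < 1) :
    ∃ B : E →L[ℝ] E, (∀ a, AA y (B a) = a) ∧ ∀ a, B (AA y a) = a := by
  have h1 : ‖y • RR‖ < 1 := by
    rw [norm_smul, Real.norm_eq_abs, abs_of_pos hy]
    calc y * ‖RR‖ ≤ y * 1 := mul_le_mul_of_nonneg_left norm_RR hy.le
      _ < 1 := by linarith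
  obtain ⟨u, hu⟩ : ∃ u : (E →L[ℝ] E)ˣ, (u : E →L[ℝ] E) = 1 - y • RR :=
    ⟨Units.oneSub (y • RR) h1, rfl⟩
  have hA : AA y = ((u * u : (E →L[ℝ] E)ˣ) : E →L[ℝ] E) := by
    unfold AA; rw [Units.val_mul, hu]
  refine ⟨(((u * u)⁻¹ : (E →L[ℝ] E)ˣ) : E →L[ℝ] E), fun a => ?_, fun a => ?_⟩
  · have h2 := congrArg (fun S : E →L[ℝ] E => S a) (u * u).mul_inv
    rw [← hA] at h2
    exact h2
  · have h2 := congrArg (fun S : E →L[ℝ] E => S a) (u * u).inv_mul
    rw [← hA] at h2
    exact h2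

/-! ### The radial solution -/

theorem UU_eq (y : ℝ) (m : E) : UU (y • ue 0, m) = ue (0, 0) + TT m := by
  unfold UU
  simp only [coord1, zero_smul, add_zero]

theorem AA_m (hB : S_BASE) {α y : ℝ} {m : E} (hg : Good α y m) :
    AA y m = (α * y) • UU (y • ue 0, m) := by
  have h := hB α y m hg.α_pos.le hg.y_pos hg.y_lt hg.g0.ne' hg.g1 hg.isM0
  have h2 := congrArg Prod.snd h
  unfold FF at h2
  simp only [ph_zero, coord0, XX_one, mul01, BB00, mul00, Prod.snd_zero] at h2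
  rw [AA_apply]
  exact sub_eq_zero.1 h2

/-- Evaluation of the mean. -/
noncomputable def Lam : E →L[ℝ] ℝ :=
  lift (fun i => (1 / 2 : ℝ) ^ i.2) 1 fun i => by
    rw [Real.norm_eq_abs, abs_of_nonneg (by positivity)]
    exact pow_le_one₀ (by norm_num) (by norm_num)

theorem Lam_ue (i : ℕ × ℕ) : Lam (ue i) = (1 / 2 : ℝ) ^ i.2 := by
  unfold Lam; rw [lift_ue]

theorem Lam_RR (a : E) : Lam (RR a) = (1 / 2 : ℝ) * Lam a := by
  have h : Lam.comp RR = (1 / 2 : ℝ) • Lam := by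
    apply L1.ext_ue
    intro i
    rw [ContinuousLinearMap.comp_apply, RR_ue, Lam_ue, smul_apply, Lam_ue, smul_eq_mul, pow_succ]
    ring
  have h2 := congrArg (fun S : E →L[ℝ] ℝ => S a) h
  exact h2

theorem TT_ue (i : ℕ × ℕ) : TT (ue i) = (1 / ((4 * i.1 + i.2 + 1) * (i.2 + 1)) : ℝ) •
    ((1 / 2 : ℝ) ^ (i.2 + 1) • ue (i.1, 0) - ue (i.1, i.2 + 1)) := by
  unfold TT; rw [lift_ue]

theorem Lam_TT (a : E) : Lam (TT a) = 0 := by
  have h : Lam.comp TT = 0 := by
    apply L1.ext_ue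
    intro i
    rw [ContinuousLinearMap.comp_apply, TT_ue, map_smul, map_sub, map_smul, Lam_ue, Lam_ue]
    simp
  have h2 := congrArg (fun S : E →L[ℝ] ℝ => S a) h
  exact h2

theorem Lam_m (hB : S_BASE) {α y : ℝ} {m : E} (hg : Good α y m) : Lam m ≠ 0 := by
  have h := congrArg Lam (AA_m hB hg)
  rw [AA_apply, UU_eq, map_add, map_sub, map_smul, map_smul, map_smul, map_add, Lam_RR, Lam_RR,
    Lam_RR, Lam_TT, Lam_ue] at h
  simp only [smul_eq_mul, pow_zero, add_zero, mul_one] at h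
  intro h0
  rw [h0] at h
  have h3 : 0 < α * y := mul_pos hg.α_pos hg.y_pos
  simp at h
  rcases h with h | h
  · exact absurd h hg.α_pos.ne'
  · exact absurd h hg.y_pos.ne'

/-! ### Multiplication by `Re z ^ (4 n)` -/

theorem J_RR (n : ℕ) (a : E) : mulE (ue (n, 0)) (RR a) = RR (mulE (ue (n, 0)) a) := by
  have h : (mulE (ue (n, 0))).comp RR = RR.comp (mulE (ue (n, 0))) := by
    apply L1.ext_ue
    rintro ⟨i, j⟩
    rw [ContinuousLinearMap.comp_apply, ContinuousLinearMap.comp_apply, RR_ue, mul_ue, mul_ue,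
      map_add, map_smul, map_smul, RR_ue, RR_ue]
    simp only [zero_add]
    rw [show j + 1 + 4 * min n i = j + 4 * min n i + 1 by ring]
  have h2 := congrArg (fun S : E →L[ℝ] E => S a) h
  exact h2

theorem J_AA (y : ℝ) (n : ℕ) (a : E) : mulE (ue (n, 0)) (AA y a) = AA y (mulE (ue (n, 0)) a) := by
  rw [AA_apply, AA_apply, map_add, map_sub, map_smul, map_smul, J_RR, J_RR, J_RR]

theorem J_ue0 (n j : ℕ) : mulE (ue (n, 0)) (ue (0, j)) = ue (n, j) := by
  rw [mul_ue]
  simp only [add_zero, zero_add, Nat.sub_zero, Nat.zero_sub, Nat.min_zero, mul_zero]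
  exact half_half _

/-- The projection to radial functions. -/
noncomputable def rad : E →L[ℝ] E :=
  lift (fun i => if i.1 = 0 then ue i else 0) 1 fun i => by
    split
    · rw [norm_ue]
    · simp

theorem rad_ue (i : ℕ × ℕ) : rad (ue i) = if i.1 = 0 then ue i else 0 := by
  unfold rad; rw [lift_ue]

theorem rad_m {α y : ℝ} {m : E} (h : IsM0 α y m) : rad m = m := by
  have h1 : HasSum (fun i => m i • (ue i : E)) m := by
    have h2 := lp.hasSum_single (p := 1) (by norm_num) m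
    refine h2.congr_fun fun i => ?_
    unfold ue
    rw [← lp.single_smul]
    simp
  have h3 := h1.mapL rad
  refine h3.unique ?_
  refine h1.congr_fun fun i => ?_
  rw [map_smul, rad_ue]
  obtain ⟨n, j⟩ := i
  rw [h n j]
  by_cases hn : n = 0
  · rw [if_pos hn, if_pos hn]
  · rw [if_neg hn, if_neg hn, zero_smul, zero_smul]

theorem NN_ue (i : ℕ × ℕ) : NN (ue i) =
    ((4 * i.1 + 1) * (1 / 2) ^ i.2 / (4 * i.1 + i.2 + 1) : ℝ) • ue i.1 := by
  unfold NN; rw [lift_ue]

/-- The error term. -/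
noncomputable def del (n : ℕ) : E →L[ℝ] Q :=
  (NN.comp (mulE (ue (n, 0))) - Lam.smulRight (ue n)).comp rad

theorem del_ue (n : ℕ) (i : ℕ × ℕ) : ‖del n (ue i)‖ ≤ 1 / (4 * n + 1) := by
  unfold del
  rw [ContinuousLinearMap.comp_apply, rad_ue]
  by_cases hi : i.1 = 0
  · obtain ⟨i1, j⟩ := i
    simp only at hi
    subst hi
    rw [if_pos rfl, sub_apply, ContinuousLinearMap.comp_apply, J_ue0, NN_ue,
      ContinuousLinearMap.smulRight_apply, Lam_ue, ← sub_smul, norm_smul, norm_ue, mul_one]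
    simp only
    have h0 : (0 : ℝ) < 4 * n + j + 1 := by positivity
    have h1 : ((4 * (n : ℝ) + 1) * (1 / 2) ^ j / (4 * n + j + 1) - (1 / 2) ^ j : ℝ) =
        -((1 / 2) ^ j * j / (4 * n + j + 1)) := by
      field_simp
      ring
    rw [h1, norm_neg, Real.norm_eq_abs, abs_of_nonneg (by positivity)]
    have h2 : ((1 / 2 : ℝ)) ^ j * j ≤ 1 := by
      have h3 : (j : ℝ) ≤ 2 ^ j := by exact_mod_cast (Nat.lt_two_pow_self (n := j)).le
      calc ((1 / 2 : ℝ)) ^ j * j ≤ (1 / 2) ^ j * 2 ^ j :=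
            mul_le_mul_of_nonneg_left h3 (by positivity)
        _ = 1 := by rw [← mul_pow]; norm_num
    rw [div_le_div_iff₀ h0 (by positivity)]
    have h4 : (0 : ℝ) ≤ j := Nat.cast_nonneg _
    have h5 : (0 : ℝ) ≤ 4 * n + 1 := by positivity
    nlinarith [mul_le_mul_of_nonneg_right h2 h5]
  · rw [if_neg hi, map_zero, norm_zero]
    positivity

theorem norm_del (n : ℕ) : ‖del n‖ ≤ 1 / (4 * n + 1) := by
  have h : del n = lift (fun i => del n (ue i)) (1 / (4 * n + 1)) (del_ue n) := by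
    apply L1.ext_ue
    intro i
    rw [lift_ue]
  rw [h]
  exact norm_lift_le _ _ (by positivity) _

theorem NN_J {α y : ℝ} {m : E} (h : IsM0 α y m) (n : ℕ) :
    NN (mulE (ue (n, 0)) m) = Lam m • ue n + del n m := by
  unfold del
  rw [ContinuousLinearMap.comp_apply, rad_m h, sub_apply, ContinuousLinearMap.comp_apply,
    ContinuousLinearMap.smulRight_apply]
  abel

theorem HH_lt (α y : ℝ) (U0 : E) {n : ℕ} (hn : n < 2) : HH α y U0 (ue n) = 0 := by
  rw [HH_apply, PP_lt hn]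
  simp

theorem HH_ge (α y : ℝ) (U0 : E) {n : ℕ} (hn : ¬ n < 2) :
    HH α y U0 (ue n) = (2 * α * y) • mulE (ue (n, 0)) U0 := by
  rw [HH_apply, PP_ge hn, BB_ue]
  simp only [Nat.zero_sub, Nat.sub_zero, zero_add, Nat.zero_min, mul_zero]

theorem tends_inv : Tendsto (fun n : ℕ => (1 : ℝ) / (4 * n + 1)) atTop (𝓝 0) := by
  have h1 : Tendsto (fun n : ℕ => (4 : ℝ) * n + 1) atTop atTop := by
    apply tendsto_atTop_add_const_right
    exact (tendsto_natCast_atTop_atTop).const_mul_atTop (by norm_num)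
  have h2 := h1.inv_tendsto_atTop
  refine h2.congr fun n => ?_
  simp

theorem diag (hC : S_CPT) (hB : S_BASE) {α y : ℝ} {m : E} (hg : Good α y m) {B : E →L[ℝ] E}
    (hBA : ∀ a, B (AA y a) = a) :
    ∃ C1 : Q →L[ℝ] Q, IsCompactOperator C1 ∧
      ∀ q, NN (B (HH α y (UU (y • ue 0, m)) q)) = (2 * Lam m) • q + C1 q := by
  have hval : ∀ n : ℕ, ¬ n < 2 → NN (B (HH α y (UU (y • ue 0, m)) (ue n))) - (2 * Lam m) • ue n =
      (2 : ℝ) • del n m := by
    intro n hn
    have h1 : HH α y (UU (y • ue 0, m)) (ue n) = AA y ((2 : ℝ) • mulE (ue (n, 0)) m) := by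
      rw [HH_ge _ _ _ hn, map_smul, ← J_AA, AA_m hB hg, map_smul, smul_smul]
      congr 1
      ring
    rw [h1, hBA, map_smul, NN_J hg.isM0, smul_add, smul_smul]
    abel
  have hval0 : ∀ n : ℕ, n < 2 → NN (B (HH α y (UU (y • ue 0, m)) (ue n))) - (2 * Lam m) • ue n =
      - ((2 * Lam m) • ue n) := by
    intro n hn
    rw [HH_lt _ _ _ hn, map_zero, map_zero, zero_sub]
  obtain ⟨φ, hφ⟩ : ∃ φ : ℕ → Q, φ = fun n => NN (B (HH α y (UU (y • ue 0, m)) (ue n))) -
    (2 * Lam m) • ue n := ⟨_, rfl⟩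
  have hb : ∀ n, ‖φ n‖ ≤ 2 * ‖m‖ + 2 * |Lam m| := by
    intro n
    rw [hφ]
    simp only
    by_cases hn : n < 2
    · rw [hval0 n hn, norm_neg, norm_smul, norm_ue, mul_one, Real.norm_eq_abs, abs_mul]
      have := norm_nonneg m
      norm_num
    · rw [hval n hn, norm_smul, Real.norm_eq_abs]
      have h2 : ‖del n m‖ ≤ 1 * ‖m‖ := by
        refine (del n).le_of_opNorm_le (c := 1) ((norm_del n).trans ?_) m
        rw [div_le_one (by positivity)]
        have : (0 : ℝ) ≤ n := Nat.cast_nonneg _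
        linarith
      have h3 := abs_nonneg (Lam m)
      norm_num
      linarith
  have ht : Tendsto φ cofinite (𝓝 0) := by
    rw [Nat.cofinite_eq_atTop]
    have h1 : Tendsto (fun n : ℕ => (2 * ‖m‖) * ((1 : ℝ) / (4 * n + 1))) atTop (𝓝 0) := by
      have := tends_inv.const_mul (2 * ‖m‖)
      simpa using this
    refine squeeze_zero_norm' ?_ h1
    filter_upwards [eventually_ge_atTop 2] with n hn
    rw [hφ]
    simp only
    rw [hval n (by omega), norm_smul, Real.norm_eq_abs]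
    have h2 : ‖del n m‖ ≤ 1 / (4 * n + 1) * ‖m‖ := (del n).le_of_opNorm_le (norm_del n) m
    norm_num
    norm_num at h2
    linarith
  refine ⟨lift φ _ hb, hC ℕ Q φ _ hb ht, fun q => ?_⟩
  have h : NN.comp (B.comp (HH α y (UU (y • ue 0, m)))) =
      (2 * Lam m) • ContinuousLinearMap.id ℝ Q + lift φ _ hb := by
    apply L1.ext_ue
    intro n
    rw [add_apply, lift_ue, hφ, smul_apply, ContinuousLinearMap.id_apply,
      ContinuousLinearMap.comp_apply, ContinuousLinearMap.comp_apply]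
    exact (add_sub_cancel _ _).symm
  have h2 := congrArg (fun S : Q →L[ℝ] Q => S q) h
  exact h2

theorem SS_cpt (hC : S_CPT) : IsCompactOperator SS := by
  unfold SS
  apply hC
  rw [Nat.cofinite_eq_atTop]
  refine squeeze_zero_norm (fun n => ?_) tends_inv
  rw [norm_smul, norm_ue, mul_one, Real.norm_eq_abs, abs_of_nonneg (by positivity)]

theorem TT_cpt (hC : S_CPT) : IsCompactOperator TT := by
  unfold TT
  apply hC
  rw [Metric.tendsto_nhds]
  intro ε hε
  obtain ⟨M, hM⟩ := exists_nat_gt (2 / ε)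
  have hfin : (Set.Iio M ×ˢ Set.Iio M : Set (ℕ × ℕ)).Finite :=
    (Set.finite_Iio M).prod (Set.finite_Iio M)
  filter_upwards [hfin.compl_mem_cofinite] with i hi
  rw [dist_zero_right, norm_smul]
  have h1 : ‖(1 / 2 : ℝ) ^ (i.2 + 1) • (ue (i.1, 0) : E) - ue (i.1, i.2 + 1)‖ ≤ 2 := by
    refine (norm_sub_le _ _).trans ?_
    rw [norm_smul, norm_ue, norm_ue, Real.norm_eq_abs, abs_of_nonneg (by positivity)]
    have : ((1 : ℝ) / 2) ^ (i.2 + 1) ≤ 1 := pow_le_one₀ (by norm_num) (by norm_num)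
    linarith
  have h3 : (0 : ℝ) ≤ i.1 := Nat.cast_nonneg _
  have h4 : (0 : ℝ) ≤ i.2 := Nat.cast_nonneg _
  have h5 : (M : ℝ) ≤ (4 * i.1 + i.2 + 1) * (i.2 + 1) := by
    have h6 : M ≤ i.1 ∨ M ≤ i.2 := by
      by_contra hcon
      push Not at hcon
      exact hi ⟨hcon.1, hcon.2⟩
    rcases h6 with h6 | h6
    · have h7 : (M : ℝ) ≤ i.1 := by exact_mod_cast h6
      nlinarith [mul_nonneg h3 h4, mul_nonneg h4 h4]
    · have h7 : (M : ℝ) ≤ i.2 := by exact_mod_cast h6
      nlinarith [mul_nonneg h3 h4, mul_nonneg h4 h4]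
  have hMpos : (0 : ℝ) < M := lt_trans (by positivity) hM
  have h8 : ‖(1 / ((4 * i.1 + i.2 + 1) * (i.2 + 1)) : ℝ)‖ ≤ 1 / M := by
    rw [Real.norm_eq_abs, abs_of_nonneg (by positivity)]
    exact one_div_le_one_div_of_le hMpos h5
  calc _ ≤ 1 / M * (2 : ℝ) := mul_le_mul h8 h1 (norm_nonneg _) (by positivity)
    _ < ε := by
      rw [div_lt_iff₀ hε] at hM
      rw [one_div, inv_mul_lt_iff₀ hMpos]
      exact hM

theorem WL_cpt (hC : S_CPT) : IsCompactOperator WL := by
  unfold WL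
  have h1 : IsCompactOperator (SS.comp PP) := (SS_cpt hC).comp_clm PP
  have h2 : IsCompactOperator ((BB (ue 0) + BB.flip (ue 0)).comp (SS.comp PP)) :=
    h1.clm_comp (BB (ue 0) + BB.flip (ue 0))
  exact h2.clm_comp RR

theorem KK_cpt (hC : S_CPT) (α y : ℝ) (m U0 : E) : IsCompactOperator (KK α y m U0) := by
  have hW : IsCompactOperator (WL.comp (ContinuousLinearMap.fst ℝ Q E)) := (WL_cpt hC).comp_clm _
  have hW1 : IsCompactOperator ((mulE.flip m).comp (WL.comp (ContinuousLinearMap.fst ℝ Q E))) :=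
    hW.clm_comp (mulE.flip m)
  have hW2 : IsCompactOperator
      ((mulE.flip (RR m)).comp (WL.comp (ContinuousLinearMap.fst ℝ Q E))) :=
    hW.clm_comp (mulE.flip (RR m))
  have hW3 : IsCompactOperator
      (RR.comp ((mulE.flip m).comp (WL.comp (ContinuousLinearMap.fst ℝ Q E)))) :=
    hW1.clm_comp RR
  have hT : IsCompactOperator (TT.comp (ContinuousLinearMap.snd ℝ Q E)) := (TT_cpt hC).comp_clm _
  unfold KK
  exact csub (csub (cadd (cadd (csub (cneg (csmul _ (crank _ _))) (csmul _ hW1))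
    (csmul _ (crank _ _))) (csmul _ (cadd hW2 hW3))) (csmul _ (crank _ _)))
    (csmul _ (cadd hT (crank _ _)))

/-- HP-FRED. -/
theorem fred : S_CPT → S_BASE → S_FRED := by
  intro hC hB α y m hg hinj
  obtain ⟨B, hAB, hBA⟩ := AA_inv hg.y_pos hg.y_lt
  obtain ⟨C1, hC1, hd⟩ := diag hC hB hg hBA
  exact fred_abs NN (AA y) B hAB hBA (HH α y (UU (y • ue 0, m))) (KK α y m (UU (y • ue 0, m)))
    (KK_cpt hC α y m _) (2 * Lam m) (mul_ne_zero two_ne_zero (Lam_m hB hg)) C1 hC1 hd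
    (fun v => DF α 0 (y • ue 0, m) 0 v) (DF_eq α y m) hinj

end Pool.Agent.W304.HP
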